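import Pool.Agent.MP_1246c0_nt.H12.SpecN

/-! The error term tends to zero. -/

namespace Pool.Agent.MP_1246c0_nt.H12

open Filter Topology Real

namespace ASY

theorem two_pow_le (k : ℕ) (t : ℝ) (h : (k : ℝ) ≤ t) : (2 : ℝ) ^ k ≤ exp t := by
  have h2 : (2 : ℝ) ≤ exp 1 := by have := add_one_le_exp (1 : ℝ); linarith
  calc (2 : ℝ) ^ k ≤ exp 1 ^ k := pow_le_pow_left₀ (by norm_num) h2 k
    _ = exp k := by rw [← exp_nat_mul, mul_one]
    _ ≤ exp t := exp_le_exp.2 h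

theorem core (C N z m tp Y : ℕ) (r L : ℝ) (hr : 16 * (C + 200000) ≤ r) (hL : L = exp r)
    (hN : 1 ≤ N) (hN5 : (N : ℝ) ^ 5 ≤ r) (hz : z ≤ N) (hm : (m : ℝ) ≤ 300 * r)
    (htp : (tp : ℝ) ≤ r) (hY : exp (r ^ 5) ≤ Y) :
    (2 * tp + 1 : ℝ) * (m + 1) * (L + 2) *
      (2 ^ (C * N ^ 5) * (L + 2) ^ 2 / (Y : ℝ) ^ (1 / (16 * N) : ℝ) *
        ((2 * L + 8) ^ 2 * 2 ^ ((N + 1) * (2 * z + m + 4))) ^ (m + 1)) ≤ exp (-r) := by
  have hC : (0 : ℝ) ≤ C := Nat.cast_nonneg C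
  have hr1 : 1000 ≤ r := by linarith
  have hN1 : (1 : ℝ) ≤ N := by exact_mod_cast hN
  have hNr : (N : ℝ) ≤ r := (le_self_pow₀ hN1 (by norm_num)).trans hN5
  have hzr : (z : ℝ) ≤ r := (Nat.cast_le.2 hz).trans hNr
  have hz0 : (0 : ℝ) ≤ z := Nat.cast_nonneg z
  have hm0 : (0 : ℝ) ≤ m := Nat.cast_nonneg m
  have he : r + 1 ≤ exp r := add_one_le_exp r
  have he2 : exp (2 * r) = exp r * exp r := by rw [← exp_add]; ring_nf
  have a1 : (2 * tp + 1 : ℝ) ≤ exp (2 * r) := by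
    have := add_one_le_exp (2 * r); linarith
  have a2 : (m + 1 : ℝ) ≤ exp (300 * r) := by
    have := add_one_le_exp (300 * r); linarith
  have a3 : L + 2 ≤ exp (2 * r) := by rw [he2, hL]; nlinarith
  have a4 : 2 * L + 8 ≤ exp (2 * r) := by rw [he2, hL]; nlinarith
  have hL0 : 0 < L := hL ▸ exp_pos r
  have a5 : (2 : ℝ) ^ (C * N ^ 5) ≤ exp (C * r) := two_pow_le _ _ (by
    push_cast; exact mul_le_mul_of_nonneg_left hN5 hC)
  have a6 : (2 : ℝ) ^ ((N + 1) * (2 * z + m + 4)) ≤ exp (606 * r ^ 2) := two_pow_le _ _ (by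
    push_cast
    calc ((N : ℝ) + 1) * (2 * z + m + 4) ≤ (2 * r) * (303 * r) :=
          mul_le_mul (by linarith) (by linarith) (by positivity) (by linarith)
      _ = 606 * r ^ 2 := by ring)
  have a7 : (L + 2) ^ 2 ≤ exp (4 * r) := by
    calc (L + 2) ^ 2 ≤ exp (2 * r) ^ 2 := pow_le_pow_left₀ (by linarith) a3 2
      _ = exp (4 * r) := by rw [← exp_nat_mul]; congr 1; push_cast; ring
  have a8 : (2 * L + 8) ^ 2 ≤ exp (4 * r) := by
    calc (2 * L + 8) ^ 2 ≤ exp (2 * r) ^ 2 := pow_le_pow_left₀ (by linarith) a4 2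
      _ = exp (4 * r) := by rw [← exp_nat_mul]; congr 1; push_cast; ring
  have a9 : (2 * L + 8) ^ 2 * 2 ^ ((N + 1) * (2 * z + m + 4)) ≤ exp (607 * r ^ 2) := by
    calc _ ≤ exp (4 * r) * exp (606 * r ^ 2) :=
          mul_le_mul a8 a6 (by positivity) (exp_pos _).le
      _ = exp (4 * r + 606 * r ^ 2) := (exp_add _ _).symm
      _ ≤ _ := exp_le_exp.2 (by nlinarith)
  have a10 : ((2 * L + 8) ^ 2 * 2 ^ ((N + 1) * (2 * z + m + 4))) ^ (m + 1) ≤
      exp (182707 * r ^ 3) := by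
    calc _ ≤ exp (607 * r ^ 2) ^ (m + 1) := pow_le_pow_left₀ (by positivity) a9 _
      _ = exp ((m + 1 : ℝ) * (607 * r ^ 2)) := by rw [← exp_nat_mul]; push_cast; rfl
      _ ≤ _ := exp_le_exp.2 (by
          calc (m + 1 : ℝ) * (607 * r ^ 2) ≤ (301 * r) * (607 * r ^ 2) :=
                mul_le_mul_of_nonneg_right (by linarith) (by positivity)
            _ = 182707 * r ^ 3 := by ring)
  have a11 : exp (r ^ 4 / 16) ≤ (Y : ℝ) ^ (1 / (16 * N) : ℝ) := by
    calc exp (r ^ 4 / 16) ≤ exp (r ^ 5 * (1 / (16 * N))) := by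
          refine exp_le_exp.2 ?_
          rw [mul_one_div, div_le_div_iff₀ (by norm_num) (by positivity)]
          have : 0 ≤ r ^ 4 := by positivity
          nlinarith
      _ = exp (r ^ 5) ^ (1 / (16 * N) : ℝ) := exp_mul _ _
      _ ≤ _ := rpow_le_rpow (exp_pos _).le hY (by positivity)
  have a12 : 2 ^ (C * N ^ 5) * (L + 2) ^ 2 / (Y : ℝ) ^ (1 / (16 * N) : ℝ) ≤
      exp (C * r) * exp (4 * r) / exp (r ^ 4 / 16) :=
    div_le_div₀ (by positivity) (mul_le_mul a5 a7 (by positivity) (exp_pos _).le) (exp_pos _) a11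
  calc _ ≤ exp (2 * r) * exp (300 * r) * exp (2 * r) *
        (exp (C * r) * exp (4 * r) / exp (r ^ 4 / 16) * exp (182707 * r ^ 3)) := by
        gcongr
    _ = exp (2 * r + 300 * r + 2 * r + (C * r + 4 * r - r ^ 4 / 16 + 182707 * r ^ 3)) := by
        simp only [exp_add, exp_sub]
    _ ≤ _ := by
        refine exp_le_exp.2 ?_
        have h3 : r ≤ r ^ 3 := le_self_pow₀ (by linarith) (by norm_num)
        have h4 : 16 * (C + 200000) * r ^ 3 ≤ r * r ^ 3 :=
          mul_le_mul_of_nonneg_right hr (by positivity)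
        have h5 : C * r ≤ C * r ^ 3 := mul_le_mul_of_nonneg_left h3 hC
        nlinarith

end ASY

theorem rowASY : OfASY := by
  intro hP C j0
  have hll : Tendsto ll atTop atTop :=
    tendsto_atTop.2 fun K => (hP 0 K).mono fun X h => h.1
  have h0 : Tendsto (fun X : ℕ => exp (-ll X)) atTop (𝓝 0) :=
    tendsto_exp_neg_atTop_nhds_zero.comp hll
  refine squeeze_zero' ?_ ?_ h0
  · refine Eventually.of_forall fun X => ?_
    have : 0 ≤ Real.log X := Real.log_natCast_nonneg X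
    unfold dl EE
    positivity
  · filter_upwards [hP j0 (16 * (C + 200000)), eventually_ge_atTop 2] with X h hX
    obtain ⟨h1, -, -, -, h2, -⟩ := h
    have hC : (0 : ℝ) ≤ C := Nat.cast_nonneg C
    have hX1 : (1 : ℝ) < X := by exact_mod_cast hX
    have hL : Real.log X = exp (ll X) := (exp_log (log_pos hX1)).symm
    have h3 : ∀ k : ℕ, k ≤ tpX X j0 + j0 + 5 → (2 : ℝ) ^ k ≤ ll X := fun k hk =>
      (pow_le_pow_right₀ (by norm_num) hk).trans h2
    have := ASY.core C (2 ^ ((j0 + tpX X j0) / 5)) (xx (tpX X j0) j0 (tpX X j0 / 2 + 1)) (mX X)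
      (tpX X j0) (YY X) (ll X) (Real.log X) h1 hL Nat.one_le_two_pow
      (by push_cast; rw [← pow_mul]; exact h3 _ (by omega))
      (Nat.pow_le_pow_right (by norm_num) (by unfold jj; omega))
      (Nat.floor_le (by linarith))
      (le_trans (by exact_mod_cast Nat.lt_two_pow_self.le) (h3 (tpX X j0) (by omega)))
      (Nat.le_ceil _)
    simpa only [dl, EE] using this

end Pool.Agent.MP_1246c0_nt.H12
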