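import Pool.Agent.MP_1246c0_nt.H12.SpecA
import Pool.Agent.MP_db5b97_nt.H85.NT

/-! Decomposition of odd primes in the cyclotomic tower. -/

namespace Pool.Agent.MP_1246c0_nt.H12

open NumberField IsDedekindDomain Pool.Agent.MP_db5b97_nt.H85
open scoped Pointwise

namespace DEC

theorem lev_nat {l : ℕ} (hl : l % 2 = 1) (h1 : 1 < l) (a : ℕ) :
    a ≤ lev l ↔ 2 ^ (a + 3) ∣ l ^ 2 - 1 := by
  have h0 : l ^ 2 - 1 ≠ 0 := by
    have := Nat.one_lt_pow two_ne_zero h1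
    omega
  have h3 : 3 ≤ padicValNat 2 (l ^ 2 - 1) :=
    (padicValNat_dvd_iff_le h0).1 (Nat.eight_dvd_sq_sub_one_of_odd (Nat.odd_iff.2 hl))
  rw [padicValNat_dvd_iff_le h0, lev]
  omega

theorem lev_int {l : ℕ} (hl : l % 2 = 1) (h1 : 1 < l) (a : ℕ) :
    a ≤ lev l ↔ (2 : ℤ) ^ (a + 3) ∣ (l : ℤ) ^ 2 - 1 := by
  rw [lev_nat hl h1, ← Int.natCast_dvd_natCast, Nat.cast_sub (Nat.one_le_pow _ _ (by omega))]
  simp

theorem nine (m j : ℕ) : (2 : ℤ) ^ (m + 3) ∣ 9 ^ j - 1 ↔ 2 ^ m ∣ j := by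
  have h := Int.two_pow_sub_pow' (x := 9) (y := 1) j (by norm_num) (by norm_num)
  have h8 : emultiplicity (2 : ℤ) (9 - 1) = (3 : ℕ) :=
    (emultiplicity_pow_self_of_prime Int.prime_two 3)
  rw [one_pow, h8] at h
  rw [← Int.natCast_dvd_natCast, Nat.cast_pow, Nat.cast_ofNat, pow_dvd_iff_le_emultiplicity,
    pow_dvd_iff_le_emultiplicity, h, add_comm m, Nat.cast_add,
    ENat.add_le_add_iff_left (ENat.natCast_ne_top 3)]

theorem lev1 {l : ℕ} (hl : l % 2 = 1) (h1 : 1 < l) (a : ℕ) :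
    (a ≤ lev l ∧ eps l = 0 ↔ l % 2 ^ (a + 2) = 1) ∧
      (a ≤ lev l ∧ eps l = 1 ↔ l % 2 ^ (a + 2) = 2 ^ (a + 2) - 1) := by
  have hM : 4 ≤ 2 ^ (a + 2) := by
    have := Nat.one_le_two_pow (n := a)
    rw [pow_add]
    omega
  have h4 : 4 ∣ 2 ^ (a + 2) := ⟨2 ^ a, by ring⟩
  have e0 : eps l = 0 ↔ l % 4 = 1 := by
    unfold eps
    split_ifs with h <;> simp <;> omega
  have e1 : eps l = 1 ↔ l % 4 = 3 := by
    unfold eps
    split_ifs with h <;> simp [h]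
  have f : l ^ 2 - 1 = (l + 1) * (l - 1) := by simpa using Nat.sq_sub_sq l 1
  have g1 : l % 2 ^ (a + 2) = 1 ↔ 2 ^ (a + 2) ∣ l - 1 := by
    rw [← Nat.modEq_iff_dvd' h1.le, Nat.ModEq, Nat.mod_eq_of_lt (show 1 < _ by omega), eq_comm]
  have g2 : l % 2 ^ (a + 2) = 2 ^ (a + 2) - 1 ↔ 2 ^ (a + 2) ∣ l + 1 := by
    rw [Nat.dvd_iff_mod_eq_zero, Nat.add_mod, Nat.mod_eq_of_lt (show 1 < _ by omega)]
    have := Nat.mod_lt l (show 0 < 2 ^ (a + 2) by omega)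
    constructor
    · intro h
      rw [h, Nat.sub_add_cancel (by omega), Nat.mod_self]
    · intro h
      have := Nat.le_of_dvd (by omega) (Nat.dvd_of_mod_eq_zero h)
      omega
  have co : ∀ c : ℕ, c % 2 = 1 → (2 ^ (a + 2)).Coprime c := fun c hc =>
    Nat.Coprime.pow_left _ (Nat.coprime_two_left.2 (Nat.odd_iff.2 hc))
  rw [lev_nat hl h1, f, e0, e1, g1, g2, pow_succ' 2 (a + 2)]
  constructor
  · have key : l % 4 = 1 → (2 * 2 ^ (a + 2) ∣ (l + 1) * (l - 1) ↔ 2 ^ (a + 2) ∣ l - 1) := by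
      intro h
      obtain ⟨c, hc⟩ : ∃ c, l + 1 = 2 * c := ⟨(l + 1) / 2, by omega⟩
      rw [hc, mul_assoc, Nat.mul_dvd_mul_iff_left two_pos,
        (co c (by omega)).dvd_mul_left]
    refine ⟨fun h => (key h.2).1 h.1, fun h => ?_⟩
    have h5 : l % 4 = 1 := by
      have := h4.trans h
      omega
    exact ⟨(key h5).2 h, h5⟩
  · have key : l % 4 = 3 → (2 * 2 ^ (a + 2) ∣ (l + 1) * (l - 1) ↔ 2 ^ (a + 2) ∣ l + 1) := by
      intro h
      obtain ⟨c, hc⟩ : ∃ c, l - 1 = 2 * c := ⟨(l - 1) / 2, by omega⟩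
      rw [hc, mul_left_comm, Nat.mul_dvd_mul_iff_left two_pos,
        (co c (by omega)).dvd_mul_right]
    refine ⟨fun h => (key h.2).1 h.1, fun h => ?_⟩
    have h5 : l % 4 = 3 := by
      have := h4.trans h
      omega
    exact ⟨(key h5).2 h, h5⟩

theorem mod2 (l M : ℕ) (hM : 0 < M) : l % (M * 2) = l % M ∨ l % (M * 2) = M + l % M := by
  have h1 := Nat.mod_mul_right_mod l M 2
  have h2 := Nat.mod_lt l (show 0 < M * 2 by omega)
  rcases lt_or_ge (l % (M * 2)) M with h | h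
  · exact Or.inl (by rw [← h1, Nat.mod_eq_of_lt h])
  · rw [Nat.mod_eq_sub_mod h, Nat.mod_eq_of_lt (by omega)] at h1
    omega

theorem lev2 {l : ℕ} (hl : l % 2 = 1) (h1 : 1 < l) (a : ℕ) :
    (lev l = a ∧ eps l = 0 ↔ l % 2 ^ (a + 3) = 2 ^ (a + 2) + 1) ∧
      (lev l = a ∧ eps l = 1 ↔ l % 2 ^ (a + 3) = 2 ^ (a + 2) - 1) := by
  have hM : 4 ≤ 2 ^ (a + 2) := by
    have := Nat.one_le_two_pow (n := a)
    rw [pow_add]
    omega
  obtain ⟨a1, a2⟩ := lev1 hl h1 a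
  obtain ⟨b1, b2⟩ := lev1 hl h1 (a + 1)
  have c := mod2 l (2 ^ (a + 2)) (by omega)
  have d := Nat.mod_lt l (show 0 < 2 ^ (a + 2) by omega)
  rw [show a + 1 + 2 = a + 2 + 1 from rfl, pow_succ] at b1 b2
  rw [show a + 3 = a + 2 + 1 from rfl, pow_succ]
  generalize l % (2 ^ (a + 2) * 2) = r at *
  generalize l % 2 ^ (a + 2) = s at *
  generalize 2 ^ (a + 2) = M at *
  constructor
  · by_cases he : eps l = 0
    · simp only [he, and_true] at a1 b1 ⊢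
      omega
    · simp only [he, and_false, false_iff] at a1 b1 ⊢
      omega
  · by_cases he : eps l = 1
    · simp only [he, and_true] at a2 b2 ⊢
      omega
    · simp only [he, and_false, false_iff] at a2 b2 ⊢
      omega

theorem eps_cases (l : ℕ) : eps l = 0 ∨ eps l = 1 := by
  unfold eps
  split_ifs <;> simp

theorem map_tw {R S : Type} [Ring R] [Ring S] (f : R →+* S) (n : ℕ) (x : R) :
    f (tw^[n] x) = tw^[n] (f x) := by
  induction n generalizing x with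
  | zero => rfl
  | succ n ih =>
    rw [Function.iterate_succ_apply, Function.iterate_succ_apply, ih, tw, tw, map_sub, map_pow,
      map_ofNat]

section Fld

variable {K : Type} [Field K]

theorem exz [IsAlgClosed K] (t : K) : ∃ z : K, z ≠ 0 ∧ z + z⁻¹ = t := by
  obtain ⟨z, hz⟩ := IsAlgClosed.exists_root
    (Polynomial.C 1 * Polynomial.X ^ 2 + Polynomial.C (-t) * Polynomial.X + Polynomial.C 1)
    (by rw [Polynomial.degree_quadratic one_ne_zero]; decide)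
  have h : z ^ 2 - t * z + 1 = 0 := by simpa [sub_eq_add_neg] using hz
  have h0 : z ≠ 0 := by
    rintro rfl
    simp at h
  refine ⟨z, h0, ?_⟩
  field_simp
  linear_combination h

theorem tw_iter {z : K} (hz : z ≠ 0) (n : ℕ) : tw^[n] (z + z⁻¹) = z ^ 2 ^ n + (z ^ 2 ^ n)⁻¹ := by
  induction n with
  | zero => simp
  | succ n ih =>
    rw [Function.iterate_succ_apply', ih, tw, pow_succ 2 n, pow_mul]
    have := pow_ne_zero (2 ^ n) hz
    field_simp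
    ring

theorem cong {z : K} (hz : z ≠ 0) (h2 : (2 : K) ≠ 0) {n : ℕ} (h : tw^[n] (z + z⁻¹) = 0) {a b : ℕ}
    (ha : Odd a) (hb : Odd b) (e : z ^ a + (z ^ a)⁻¹ = z ^ b + (z ^ b)⁻¹) :
    (2 : ℤ) ^ (n + 3) ∣ (a : ℤ) ^ 2 - b ^ 2 := by
  rw [tw_iter hz] at h
  have h3 : z ^ 2 ^ (n + 1) = -1 := by
    have := pow_ne_zero (2 ^ n) hz
    rw [pow_succ, pow_mul]
    field_simp at h
    linear_combination h
  have h4 : orderOf z = 2 ^ (n + 1 + 1) := orderOf_eq_prime_pow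
    (fun h5 => h2 (by rw [h3] at h5; linear_combination -h5))
    (by rw [pow_succ, pow_mul, h3, neg_one_sq])
  have h5 : (z ^ a - z ^ b) * (z ^ (a + b) - 1) = 0 := by
    have := pow_ne_zero a hz
    have := pow_ne_zero b hz
    rw [pow_add]
    field_simp at e
    linear_combination e
  obtain ⟨a', rfl⟩ := ha
  obtain ⟨b', rfl⟩ := hb
  rw [sq_sub_sq]
  rcases mul_eq_zero.1 h5 with h6 | h6
  · have h7 : IsOfFinOrder z := orderOf_pos_iff.1 (by rw [h4]; positivity)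
    have h8 := (Nat.modEq_iff_dvd.1 (h7.pow_eq_pow_iff_modEq.1 (sub_eq_zero.1 h6)).symm)
    rw [h4] at h8
    rw [pow_succ']
    exact mul_dvd_mul ⟨a' + b' + 1, by push_cast; ring⟩ (by exact_mod_cast h8)
  · have h8 := orderOf_dvd_of_pow_eq_one (sub_eq_zero.1 h6)
    rw [h4] at h8
    rw [pow_succ]
    exact mul_dvd_mul (by exact_mod_cast h8) ⟨a' - b', by push_cast; ring⟩

end Fld

variable {F : Type} [Field F] [NumberField F] {n : ℕ} {θ : F} {γ : F ≃ₐ[ℚ] F} {l : ℕ} {w : Sp F}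

attribute [local instance] Ideal.Quotient.field

theorem charP (hl : l.Prime) (hw : (l : 𝓞 F) ∈ w.asIdeal) : CharP (𝓞 F ⧸ w.asIdeal) l :=
  (CharP.charP_iff_prime_eq_zero hl).2 (by
    rw [← map_natCast (Ideal.Quotient.mk w.asIdeal), Ideal.Quotient.eq_zero_iff_mem]
    exact hw)

theorem lover (hl : l.Prime) (hw : (l : 𝓞 F) ∈ w.asIdeal) :
    w.asIdeal.LiesOver (Ideal.span {(l : ℤ)}) :=
  (Ideal.liesOver_span_iff w.isPrime.ne_top (Nat.prime_iff_prime_int.1 hl)).2 (by simpa using hw)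

theorem odd (hl : Gd 0 l) : l % 2 = 1 := Nat.odd_iff.1 (hl.1.odd_of_ne_two hl.2.1)

theorem pow_cong (h : Cy F n θ γ) (hi : IsIntegral ℤ θ) (hl : Gd 0 l)
    (hw : (l : 𝓞 F) ∈ w.asIdeal) {j i : ℕ} (e : ∀ x : 𝓞 F, γ ^ j • x - x ^ l ^ i ∈ w.asIdeal) :
    (2 : ℤ) ^ (n + 3) ∣ 9 ^ j - ((l : ℤ) ^ 2) ^ i := by
  have := charP hl.1 hw
  have := Fact.mk hl.1
  let K := AlgebraicClosure (𝓞 F ⧸ w.asIdeal)
  let r : 𝓞 F →+* K := (algebraMap (𝓞 F ⧸ w.asIdeal) K).comp (Ideal.Quotient.mk _)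
  let t : 𝓞 F := ⟨θ, hi⟩
  obtain ⟨z, hz, hzt⟩ := exz (r t)
  have h1 : tw^[n] t = 0 := RingOfIntegers.coe_injective (by
    rw [map_tw, map_zero]
    exact h.root)
  have h2 : γ • t = t ^ 3 - 3 * t := RingOfIntegers.coe_injective (by
    rw [map_sub, map_mul, map_pow, map_ofNat]
    exact h.act)
  have h3 : ∀ k : ℕ, r (γ ^ k • t) = z ^ 3 ^ k + (z ^ 3 ^ k)⁻¹ := fun k => by
    induction k with
    | zero => simp [hzt]
    | succ k ih =>
      have h4 : γ ^ k • (3 : 𝓞 F) = 3 := smul_natCast F 3 (γ ^ k)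
      rw [pow_succ 3 k, pow_succ, mul_smul, h2, smul_sub, smul_mul', smul_pow', h4, map_sub, map_mul, map_pow,
        map_ofNat, ih, pow_mul]
      have h5 := mul_inv_cancel₀ (pow_ne_zero (3 ^ k) hz)
      rw [← inv_pow]
      linear_combination 3 * (z ^ 3 ^ k + (z ^ 3 ^ k)⁻¹) * h5
  have h5 : r (γ ^ j • t) = r t ^ l ^ i := by
    rw [← map_pow]
    exact congrArg (algebraMap (𝓞 F ⧸ w.asIdeal) K) (Ideal.Quotient.eq.2 (e t))
  rw [h3, ← hzt, add_pow_char_pow, inv_pow] at h5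
  have h6 : (2 : K) ≠ 0 := fun h6 => hl.2.1 ((Nat.prime_dvd_prime_iff_eq hl.1 Nat.prime_two).1
    ((CharP.cast_eq_zero_iff K l 2).1 (by exact_mod_cast h6)))
  have h7 := cong hz h6 (n := n) (by rw [hzt, ← map_tw, h1, map_zero])
    (Odd.pow (by decide)) (Nat.odd_iff.2 (odd hl)).pow h5
  convert h7 using 2
  · push_cast
    rw [← pow_mul, mul_comm, pow_mul]
    norm_num
  · push_cast
    rw [← pow_mul, mul_comm, pow_mul]

theorem stab (hl : l.Prime) (hw : (l : 𝓞 F) ∈ w.asIdeal) {g : F ≃ₐ[ℚ] F} (hg : g • w = w) :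
    ∃ i : ℕ, ∀ x : 𝓞 F, g • x - x ^ l ^ i ∈ w.asIdeal := by
  have := lover hl hw
  have := Fact.mk hl
  have hσ : g ∈ MulAction.stabilizer (F ≃ₐ[ℚ] F) w.asIdeal := congrArg HeightOneSpectrum.asIdeal hg
  let τ := IsFractionRing.stabilizerHom (F ≃ₐ[ℚ] F) (Ideal.span {(l : ℤ)}) w.asIdeal
     (ℤ ⧸ Ideal.span {(l : ℤ)}) (𝓞 F ⧸ w.asIdeal) ⟨g, hσ⟩
  have : CharP (ℤ ⧸ Ideal.span {(l : ℤ)}) l := ringChar.of_eq <| Int.ringChar_idealQuot l
  have : Finite (𝓞 F ⧸ w.asIdeal) := Ring.HasFiniteQuotients.finiteQuotient w.ne_bot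
  obtain ⟨i, hi⟩ := FiniteField.exists_forall_apply_eq_pow (ℤ ⧸ Ideal.span {(l : ℤ)}) l
    (𝓞 F ⧸ w.asIdeal) τ
  refine ⟨i, fun x => ?_⟩
  have h₁ := IsFractionRing.stabilizerHom_apply_apply_mk (F ≃ₐ[ℚ] F) (Ideal.span {(l : ℤ)})
    w.asIdeal (ℤ ⧸ Ideal.span {(l : ℤ)}) (𝓞 F ⧸ w.asIdeal) ⟨g, hσ⟩ x
  simp only [Algebra.algebraMap_self, RingHomCompTriple.comp_apply] at h₁
  specialize hi (Ideal.Quotient.mk _ x)
  rw [h₁, Int.card_ideal_quot, ← map_pow] at hi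
  exact Ideal.Quotient.eq.1 hi

theorem frob [IsGalois ℚ F] (hl : l.Prime) (hw : (l : 𝓞 F) ∈ w.asIdeal) :
    ∃ g : F ≃ₐ[ℚ] F, g • w = w ∧ ∀ x : 𝓞 F, g • x - x ^ l ∈ w.asIdeal := by
  have := lover hl hw
  have : Finite (𝓞 F ⧸ w.asIdeal) := Ring.HasFiniteQuotients.finiteQuotient w.ne_bot
  obtain ⟨g, hg⟩ := IsArithFrobAt.exists_of_isInvariant ℤ (F ≃ₐ[ℚ] F) w.asIdeal
  refine ⟨g, HeightOneSpectrum.ext hg.mem_stabilizer, fun x => ?_⟩
  have h1 := hg x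
  rwa [← Ideal.over_def w.asIdeal (Ideal.span {(l : ℤ)}), Int.card_ideal_quot] at h1

theorem int_of_pow (hl : l.Prime) (hw : (l : 𝓞 F) ∈ w.asIdeal) {x : 𝓞 F}
    (hx : x ^ l - x ∈ w.asIdeal) : ∃ a : ℤ, x - a ∈ w.asIdeal := by
  have := charP hl hw
  have := Fact.mk hl
  have h1 : Ideal.Quotient.mk w.asIdeal x ^ l = Ideal.Quotient.mk w.asIdeal x := by
    rw [← map_pow]
    exact Ideal.Quotient.eq.2 hx
  have h2 := (Subfield.mem_bot_iff_pow_eq_self _ l).2 h1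
  have h3 : (⊥ : Subfield (𝓞 F ⧸ w.asIdeal)) ≤ (ZMod.castHom (dvd_refl l) _).fieldRange := bot_le
  obtain ⟨a, ha⟩ := h3 h2
  obtain ⟨a, rfl⟩ := ZMod.intCast_surjective a
  refine ⟨a, Ideal.Quotient.eq.1 ?_⟩
  rw [← ha, map_intCast, map_intCast]

theorem iter {g : F ≃ₐ[ℚ] F} (hg : g • w = w) {x : 𝓞 F} (hx : g • x - x ∈ w.asIdeal) (c : ℕ) :
    g ^ c • x - x ∈ w.asIdeal := by
  induction c with
  | zero => simp
  | succ c ih =>
    have h1 : g • (g ^ c • x - x) ∈ w.asIdeal := by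
      rw [← hg, mem_smul_iff, inv_smul_smul]
      exact ih
    have := w.asIdeal.add_mem h1 hx
    rwa [smul_sub, sub_add_sub_cancel, smul_smul, ← pow_succ'] at this

theorem dec (hC : SCY) (h : Cy F n θ γ) (hl : Gd 0 l) (hw : (l : 𝓞 F) ∈ w.asIdeal) :
    (∀ j : ℕ, γ ^ j • w = w ↔ 2 ^ min (lev l) n ∣ j) ∧
      (∀ w' : Sp F, (l : 𝓞 F) ∈ w'.asIdeal → ∃ j : ℕ, w' = γ ^ j • w) ∧
      (∀ x : Un F, x.val = l → ord w x = 1) ∧
      ∀ x : 𝓞 F, γ ^ 2 ^ lev l • x - x ∈ w.asIdeal → ∃ a : ℤ, x - a ∈ w.asIdeal := by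
  obtain ⟨_, hg, ho, hi⟩ := hC.gal F n θ γ h
  have hov := lover hl.1 hw
  have := Fact.mk hl.1
  obtain ⟨g, hgw, hgx⟩ := frob hl.1 hw
  obtain ⟨f, rfl⟩ := hg g
  have hf := pow_cong h hi hl hw (j := f) (i := 1) (by simpa using hgx)
  rw [pow_one] at hf
  have hm : ∀ m ≤ n, 2 ^ m ∣ f ↔ m ≤ lev l := fun m hm => by
    rw [← nine, lev_int (odd hl) hl.1.one_lt, ← sub_add_sub_cancel _ ((l : ℤ) ^ 2)]
    exact dvd_add_right ((pow_dvd_pow _ (by omega)).trans hf)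
  have h1 : ∀ j : ℕ, γ ^ j • w = w ↔ 2 ^ min (lev l) n ∣ j := by
    intro j
    constructor
    · intro hj
      obtain ⟨i, hi'⟩ := stab hl.1 hw hj
      have h2 := pow_cong h hi hl hw hi'
      have h3 := (lev_int (odd hl) hl.1.one_lt _).1 (min_le_left (lev l) n)
      have h4 := h3.trans (sub_dvd_pow_sub_pow _ 1 i)
      rw [one_pow] at h4
      rw [← nine, ← sub_add_sub_cancel _ (((l : ℤ) ^ 2) ^ i)]
      exact dvd_add ((pow_dvd_pow _ (by omega)).trans h2) h4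
    · rintro ⟨c, rfl⟩
      have h2 : γ ^ 2 ^ min (lev l) n ∈ MulAction.stabilizer (F ≃ₐ[ℚ] F) w := by
        rcases le_or_gt n (lev l) with hn | hn
        · rw [min_eq_right hn, ← ho, pow_orderOf_eq_one]
          exact one_mem _
        · rw [min_eq_left hn.le]
          obtain ⟨d, hd⟩ := (hm _ hn.le).2 le_rfl
          have hd' : ¬2 ∣ d := fun ⟨e, he⟩ => by
            have := (hm (lev l + 1) hn).1 ⟨e, by rw [hd, he]; ring⟩
            omega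
          have hco : d.Coprime (orderOf (γ ^ 2 ^ lev l)) :=
            Nat.Coprime.of_dvd_right (orderOf_pow_dvd _) (by
              rw [ho]
              exact ((Nat.Prime.coprime_iff_not_dvd Nat.prime_two).2 hd').symm.pow_right _)
          obtain ⟨e, he⟩ := exists_pow_eq_self_of_coprime hco
          rw [← he, ← pow_mul γ, ← hd]
          exact pow_mem (show γ ^ f ∈ MulAction.stabilizer _ w from hgw) e
      rw [pow_mul]
      exact pow_mem h2 c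
  refine ⟨h1, fun w' hw' => ?_, fun x hx => ?_, fun x hx => ?_⟩
  · have := lover hl.1 hw'
    obtain ⟨g, hg'⟩ := Ideal.exists_smul_eq_of_isGaloisGroup (Ideal.span {(l : ℤ)}) w.asIdeal
      w'.asIdeal (F ≃ₐ[ℚ] F)
    obtain ⟨j, rfl⟩ := hg g
    exact ⟨j, HeightOneSpectrum.ext hg'.symm⟩
  · have h2 : ((2 : ℕ) : 𝓞 F) ∉ w.asIdeal := fun h2 => by
      have := val_coprime h2 ((Nat.coprime_primes hl.1 Nat.prime_two).2 hl.2.1)
      exact (val_nat_lt_one hw).ne this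
    have h3 : w.asIdeal.inertia (F ≃ₐ[ℚ] F) = ⊥ := by
      refine (Subgroup.eq_bot_iff_forall _).2 fun g hg' => ?_
      obtain ⟨k, rfl⟩ := hg g
      exact hC.dist F n θ γ h ⟨w, h2⟩ k ((val_lt_one_iff w _).2 (hg' ⟨θ, hi⟩))
    have h4 := Ideal.card_inertia_eq_ramificationIdxIn (G := F ≃ₐ[ℚ] F) (Ideal.span {(l : ℤ)})
      w.asIdeal
    have hl0 : (l : 𝓞 F) ≠ 0 := by exact_mod_cast hl.1.ne_zero
    rw [h3, Subgroup.card_bot, Ideal.ramificationIdxIn_eq_ramificationIdx _ w.asIdeal (F ≃ₐ[ℚ] F),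
      Ideal.IsDedekindDomain.ramificationIdx_eq_multiplicity (Ideal.span {(l : ℤ)}) _
        (Ideal.map_ne_bot_of_ne_bot (by simp [hl.1.ne_zero])), Ideal.map_span,
      Set.image_singleton, map_natCast] at h4
    rw [show x = mkI l hl0 from Un.ext hx, ord_mkI, ← h4, Nat.cast_one]
  · refine int_of_pow hl.1 hw ?_
    have h2 : γ ^ f • x - x ∈ w.asIdeal := by
      rcases le_or_gt (lev l) n with hn | hn
      · obtain ⟨d, rfl⟩ := (hm _ hn).2 le_rfl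
        rw [pow_mul]
        exact iter ((h1 _).2 (pow_dvd_pow _ (min_le_left _ _))) hx d
      · rw [orderOf_dvd_iff_pow_eq_one.1 (ho ▸ (hm n le_rfl).2 hn.le), one_smul, sub_self]
        exact zero_mem _
    simpa using w.asIdeal.sub_mem h2 (hgx x)

end DEC

open DEC in
theorem rowDEC : OfDEC := by
  intro hC
  refine ⟨fun F _ _ n θ γ h l w hl hw => dec hC h hl hw, fun F _ _ n θ γ h l hl => ?_,
    fun l hl h1 => ⟨?_, ?_, fun a => ⟨(lev1 hl h1 a).1, (lev1 hl h1 a).2, lev2 hl h1 a⟩⟩⟩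
  · have := Fact.mk hl.1
    obtain ⟨P, hP, hov⟩ := Ideal.exists_maximal_ideal_liesOver_of_isIntegral (S := 𝓞 F)
      (Ideal.span {(l : ℤ)})
    have hw : (l : 𝓞 F) ∈ P := by
      simpa using (Ideal.liesOver_span_iff hP.ne_top (Nat.prime_iff_prime_int.1 hl.1)).1 hov
    let w : Sp F := ⟨P, hP.isPrime, fun e => hl.1.ne_zero (by simpa [e] using hw)⟩
    have h1 := (dec (w := w) hC h ⟨hl.1, hl.2.1, Nat.zero_le _⟩ hw).2.2.2
    have h2 : γ ^ 2 ^ lev l = 1 :=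
      orderOf_dvd_iff_pow_eq_one.1 ((hC.gal F n θ γ h).2.2.1 ▸ pow_dvd_pow 2 hl.2.2)
    have := charP (w := w) hl.1 hw
    have h3 : Function.Bijective (ZMod.castHom (dvd_refl l) (𝓞 F ⧸ P)) := by
      refine ⟨ZMod.castHom_injective _, fun y => ?_⟩
      obtain ⟨x, rfl⟩ := Ideal.Quotient.mk_surjective y
      obtain ⟨a, ha⟩ := h1 x (by simp [h2])
      exact ⟨a, by rw [map_intCast, Ideal.Quotient.eq.2 ha, map_intCast]⟩
    exact ⟨(RingEquiv.ofBijective _ h3).symm.toRingHom.comp (Ideal.Quotient.mk P)⟩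
  · obtain ⟨a, b⟩ := lev2 hl h1 0
    norm_num at a b
    rw [← a, ← b]
    have := eps_cases l
    tauto
  · have h2 : 4 ≤ 2 ^ (lev l + 2) ∧ 2 ^ lev l * 4 = 2 ^ (lev l + 2) :=
      ⟨by have := Nat.one_le_two_pow (n := lev l); rw [pow_add]; omega, by ring⟩
    have h3 := Nat.mod_le l (2 ^ (lev l + 2))
    rcases eps_cases l with h | h
    · have h4 := (lev1 hl h1 (lev l)).1.1 ⟨le_rfl, h⟩
      by_contra hn
      rw [Nat.mod_eq_of_lt (by omega)] at h4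
      omega
    · have := (lev1 hl h1 (lev l)).2.1 ⟨le_rfl, h⟩
      omega

end Pool.Agent.MP_1246c0_nt.H12
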