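import Pool.Agent.MP_1246c0_nt.H12.SpecR

/-! The probability of several systems over the field with two elements. -/

namespace Pool.Agent.MP_1246c0_nt.H12

open Finset Matrix

namespace HP

variable {ι : Type} [Fintype ι] [DecidableEq ι]

theorem card_le {D E M : Type} [AddCommGroup D] [AddCommGroup E] [AddCommGroup M] [Finite E]
    [Finite M] (ψ : D →+ E) (e : D → M) (he : Function.Injective e) (S : AddSubgroup M)
    (h : ∀ d, ψ d = 0 → e d ∈ S) : Nat.card D ≤ Nat.card S * Nat.card E := by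
  rw [← ψ.ker.card_mul_index, AddSubgroup.index_ker]
  refine Nat.mul_le_mul (Nat.card_le_card_of_injective (fun d => ⟨e d, h d d.2⟩)
    fun d d' hd => Subtype.ext (he (congrArg Subtype.val hd))) ?_
  exact Nat.card_le_card_of_injective _ Subtype.val_injective

theorem dual {k : ℕ} {F : Finset ι} {y : Fin k → ι → F2} (h : Idp F y) :
    ∃ u : Fin k → ι → F2, (∀ i l, l ∉ F → u i l = 0) ∧
      ∀ i j, u i ⬝ᵥ y j = if i = j then 1 else 0 := by
  let L : (Fin k → F2) →ₗ[F2] ι → F2 :=
    Matrix.mulVecLin (Matrix.of fun l i => if l ∈ F then y i l else 0)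
  have hL : LinearMap.ker L = ⊥ := LinearMap.ker_eq_bot'.2 fun a ha => h a fun l hl => by
    have := congrFun ha l
    simpa [L, mulVec, dotProduct, hl, mul_comm] using this
  obtain ⟨g, hg⟩ := L.exists_leftInverse_of_injective hL
  refine ⟨fun i l => if l ∈ F then g (fun j => if l = j then 1 else 0) i else 0,
    fun i l hl => if_neg hl, fun i j => ?_⟩
  have h1 := congrFun (LinearMap.congr_fun hg (Pi.single j 1)) i
  rw [LinearMap.comp_apply, LinearMap.pi_apply_eq_sum_univ, LinearMap.id_apply, Pi.single_apply,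
    Finset.sum_apply] at h1
  rw [← h1]
  refine Finset.sum_congr rfl fun l _ => ?_
  by_cases hl : l ∈ F <;> simp [L, hl, mul_comm]

theorem sym {B F : Finset ι} {H : Matrix ι ι F2} (hH : H ∈ Hs i2 B F) (a b : ι → F2) :
    a ⬝ᵥ H *ᵥ b = b ⬝ᵥ H *ᵥ a := by
  have h1 : Hᵀ = H := Matrix.ext fun l l' => hH.1 l l'
  rw [dotProduct_mulVec, ← mulVec_transpose, h1, dotProduct_comm]

theorem off {B F : Finset ι} {H : Matrix ι ι F2} (hH : H ∈ Hs i2 B F) (a : ι → F2) {l : ι}
    (hl : l ∉ B) : (H *ᵥ a) l = 0 :=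
  Finset.sum_eq_zero fun l' _ => by
    change H l l' * a l' = 0
    rw [hH.2.2 l l' fun h => hl h.1, zero_mul]

theorem real {B F : Finset ι} {n : ℕ} {y u w : Fin n → ι → F2}
    (hu : ∀ i l, l ∉ B → u i l = 0) (hw : ∀ i l, l ∉ B → w i l = 0)
    (hd : ∀ i j, u i ⬝ᵥ y j = if i = j then 1 else 0)
    (hs : ∀ i, (∀ l, l ∉ F → u i l = 0) ∨ ((∀ l, l ∉ F → w i l = 0) ∧ (∀ l ∈ F, y i l = 0) ∧
      ∀ j, j ≠ i → ∀ l, l ∉ F → u j l = 0))
    (hc : ∀ i j, y i ⬝ᵥ w j = y j ⬝ᵥ w i) : ∃ H ∈ Hs i2 B F, ∀ i, H *ᵥ y i = w i := by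
  refine ⟨Matrix.of fun l l' => ∑ i, w i l * u i l' + ∑ i, u i l * w i l' -
    ∑ i, ∑ j, (y i ⬝ᵥ w j) * (u i l * u j l'), ⟨fun l l' => ?_, fun l => ?_, fun l l' h => ?_⟩,
    fun m => funext fun l => ?_⟩
  · simp only [of_apply, RingHom.id_apply]
    rw [add_comm, Finset.sum_comm]
    congr 1
    · congr 1 <;> exact Finset.sum_congr rfl fun i _ => mul_comm _ _
    · exact Finset.sum_congr rfl fun i _ => Finset.sum_congr rfl fun j _ => by
        rw [hc, mul_comm (u j l')]
  · exact (ZMod.intCast_surjective _).imp fun _ h => h.symm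
  · have k1 : ∀ i a b, ¬(a ∈ B ∧ b ∈ B ∧ (a ∈ F ∨ b ∈ F)) → w i a * u i b = 0 := by
      intro i a b h
      by_cases ha : a ∈ B
      · by_cases hb : b ∈ B
        · rcases hs i with h1 | h1
          · rw [h1 b fun hb' => h ⟨ha, hb, Or.inr hb'⟩, mul_zero]
          · rw [h1.1 a fun ha' => h ⟨ha, hb, Or.inl ha'⟩, zero_mul]
        · rw [hu i b hb, mul_zero]
      · rw [hw i a ha, zero_mul]
    have k2 : ∀ i j, (y i ⬝ᵥ w j) * (u i l * u j l') = 0 := by
      intro i j
      by_cases ha : l ∈ B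
      · by_cases hb : l' ∈ B
        · have ha' : l ∉ F := fun ha' => h ⟨ha, hb, Or.inl ha'⟩
          have hb' : l' ∉ F := fun hb' => h ⟨ha, hb, Or.inr hb'⟩
          rcases hs i with h1 | h1
          · rw [h1 l ha', zero_mul, mul_zero]
          · by_cases hj : j = i
            · have : y i ⬝ᵥ w i = 0 := Finset.sum_eq_zero fun x _ => by
                by_cases hx : x ∈ F
                · rw [h1.2.1 x hx, zero_mul]
                · rw [h1.1 x hx, mul_zero]
              rw [hj, this, zero_mul]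
            · rw [h1.2.2 j hj l' hb', mul_zero, mul_zero]
        · rw [hu j l' hb, mul_zero, mul_zero]
      · rw [hu i l ha, zero_mul, mul_zero]
    rw [of_apply, Finset.sum_eq_zero fun i _ => k1 i l l' h, Finset.sum_eq_zero fun i _ =>
      (mul_comm _ _).trans (k1 i l' l fun ⟨a, b, c⟩ => h ⟨b, a, c.symm⟩),
      Finset.sum_eq_zero fun i _ => Finset.sum_eq_zero fun j _ => k2 i j]
    simp
  · have e1 : ∀ a b : Fin n → ι → F2, ∑ l', (∑ i, a i l * b i l') * y m l' =
        ∑ i, a i l * (b i ⬝ᵥ y m) := fun a b => by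
      simp only [Finset.sum_mul, dotProduct, Finset.mul_sum, mul_assoc]
      exact Finset.sum_comm
    have e2 : ∑ l', (∑ i, ∑ j, (y i ⬝ᵥ w j) * (u i l * u j l')) * y m l' =
        ∑ i, ∑ j, (y i ⬝ᵥ w j) * u i l * (u j ⬝ᵥ y m) := by
      simp only [Finset.sum_mul]
      rw [Finset.sum_comm]
      refine Finset.sum_congr rfl fun i _ => ?_
      rw [Finset.sum_comm]
      refine Finset.sum_congr rfl fun j _ => ?_
      change _ = _ * ∑ x, u j x * y m x
      rw [Finset.mul_sum]
      exact Finset.sum_congr rfl fun x _ => by ring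
    change ∑ l', (_ + _ - _) * y m l' = _
    simp only [sub_mul, add_mul, Finset.sum_sub_distrib, Finset.sum_add_distrib]
    rw [e1, e1, e2]
    simp only [hd, mul_ite, mul_one, mul_zero, Finset.sum_ite_eq', Finset.mem_univ, if_true]
    rw [add_sub_assoc, ← Finset.sum_sub_distrib, Finset.sum_eq_zero fun i _ => ?_, add_zero]
    rw [dotProduct_comm, hc, mul_comm, sub_self]

theorem main (hA : SAVG) {B F : Finset ι} {n : ℕ} {y u : Fin n → ι → F2} (v : Fin n → ι → F2)
    (T : Fin n → Finset ι) (hT : ∀ i, T i ⊆ B) (hu : ∀ i l, l ∉ B → u i l = 0)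
    (hd : ∀ i j, u i ⬝ᵥ y j = if i = j then 1 else 0)
    (hs : ∀ i, (∀ l, l ∉ F → u i l = 0) ∨ (T i = F ∧ (∀ l ∈ F, y i l = 0) ∧
      ∀ j, j ≠ i → ∀ l, l ∉ F → u j l = 0)) :
    Ex (Hs i2 B F) (fun H => ind (∀ i, ∀ l ∈ B, (H *ᵥ y i) l = v i l)) ≤
      ind (∀ i j, dot B (y i) (v j) = dot B (y j) (v i)) * 2 ^ n.choose 2 /
        2 ^ ∑ i, (T i).card := by
  let Φ : Matrix ι ι F2 →+ Fin n → ι → F2 :=
    { toFun := fun H i => H *ᵥ y i
      map_zero' := funext fun i => zero_mulVec _
      map_add' := fun H H' => funext fun i => add_mulVec _ _ _ }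
  let v' : Fin n → ι → F2 := fun i l => if l ∈ B then v i l else 0
  have h1 : Ex (Hs i2 B F) (fun H => ind (∀ i, ∀ l ∈ B, (H *ᵥ y i) l = v i l)) ≤
      Ex (Hs i2 B F) fun H => ind (Φ H = v') := by
    refine hA.mono _ _ _ _ fun H hH => ?_
    unfold ind
    split_ifs with a b
    · exact le_rfl
    · refine absurd (funext fun i => funext fun l => ?_) b
      by_cases hl : l ∈ B
      · exact (a i l hl).trans (if_pos hl).symm
      · exact (off hH _ hl).trans (if_neg hl).symm
    · exact zero_le_one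
    · exact le_rfl
  refine h1.trans ?_
  rw [hA.fib]
  let e : (∀ i, T i → F2) →+ Fin n → ι → F2 :=
    { toFun := fun d i l => if h : l ∈ T i then d i ⟨l, h⟩ else 0
      map_zero' := by
        funext i l
        simp
      map_add' := fun d d' => by
        funext i l
        by_cases h : l ∈ T i <;> simp [h] }
  have he : Function.Injective e := fun d d' h => by
    funext i l
    simpa [e, l.2] using congrFun (congrFun h i) l
  let ψ : (Fin n → ι → F2) →+ {p : Fin n × Fin n // p.1 < p.2} → F2 :=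
    { toFun := fun w p => y p.1.1 ⬝ᵥ w p.1.2 - y p.1.2 ⬝ᵥ w p.1.1
      map_zero' := by
        funext p
        simp
      map_add' := fun w w' => by
        funext p
        simp only [Pi.add_apply, dotProduct_add]
        ring }
  have h2 := card_le (ψ.comp e) e he ((Hs i2 B F).map Φ) fun d hd' => by
    have h3 : ∀ i j, i < j → y i ⬝ᵥ e d j = y j ⬝ᵥ e d i := fun i j h =>
      sub_eq_zero.1 (congrFun hd' ⟨(i, j), h⟩)
    obtain ⟨H, hH, h4⟩ := real (y := y) (w := e d) hu
      (fun i l hl => dif_neg fun h => hl (hT i h)) hd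
      (fun i => (hs i).imp_right fun h => ⟨fun l hl => dif_neg (h.1 ▸ hl), h.2⟩) fun i j => by
        rcases lt_trichotomy i j with h | rfl | h
        exacts [h3 i j h, rfl, (h3 j i h).symm]
    exact ⟨H, hH, funext h4⟩
  have c1 : Nat.card (∀ i, T i → F2) = 2 ^ ∑ i, (T i).card := by
    simp [Finset.prod_pow_eq_pow_sum]
  have c2 : Nat.card ({p : Fin n × Fin n // p.1 < p.2} → F2) = 2 ^ n.choose 2 := by
    rw [Nat.card_fun, Nat.card_zmod, Nat.card_eq_fintype_card, Fintype.card_subtype,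
      Fintype.card_product_filter_lt, Fintype.card_fin]
  rw [c1, c2] at h2
  have h5 : (0 : ℝ) < Nat.card ((Hs i2 B F).map Φ) := by exact_mod_cast Nat.card_pos
  unfold ind
  split_ifs with a b
  · rw [one_mul, div_le_div_iff₀ h5 (by positivity), one_mul, mul_comm]
    exact_mod_cast h2
  · obtain ⟨H, hH, h6⟩ := a
    have h7 : ∀ i j, dot B (y i) (v j) = y i ⬝ᵥ H *ᵥ y j := fun i j => by
      rw [show H *ᵥ y j = v' j from congrFun h6 j]
      simp [dot, dotProduct, v']
    exact absurd (fun i j => by rw [h7, h7, sym hH]) b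
  · rw [zero_div]
    positivity
  · simp

end HP

open HP in
theorem rowHP : OfHP := by
  intro hA _
  constructor
  · intro ι _ _ B F k y v hF hy
    obtain ⟨u, hu, hd⟩ := dual hy
    have := main hA v (fun _ => B) (fun _ => Subset.rfl)
      (fun i l hl => hu i l fun h => hl (hF h)) hd fun i => Or.inl (hu i)
    simpa only [Nat.choose_two_right, Finset.sum_const, Finset.card_univ, Fintype.card_fin,
      smul_eq_mul] using this
  · intro ι _ _ B F k y v y0 v0 hF hy h0 ⟨l0, hl0, h1⟩
    obtain ⟨u, hu, hd⟩ := dual hy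
    have h2 : y0 l0 = 1 := by
      revert h1
      generalize y0 l0 = a
      revert a
      decide
    have h3 : ∀ i, u i ⬝ᵥ y0 = 0 := fun i => Finset.sum_eq_zero fun l _ => by
      by_cases hl : l ∈ F
      · rw [h0 l hl, mul_zero]
      · rw [hu i l hl, zero_mul]
    have := main hA (y := Fin.cons y0 y)
      (u := Fin.cons (Pi.single l0 1 - ∑ i, y i l0 • u i) u) (Fin.cons v0 v)
      (Fin.cons F fun _ => B) (F := F) (B := B) (fun i => ?_) (fun i l hl => ?_) (fun i j => ?_) fun i => ?_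
    · simp only [Fin.forall_fin_succ, Fin.cons_zero, Fin.cons_succ, Fin.sum_univ_succ,
        Nat.choose_two_right, Finset.sum_const, Finset.card_univ, Fintype.card_fin, smul_eq_mul,
        Nat.add_sub_cancel, true_and] at this
      rw [mul_comm k (k + 1)]
      convert this using 4
      exact ⟨fun ⟨a, b⟩ => ⟨b, fun i => ⟨(b i).symm, a i⟩⟩,
        fun ⟨a, b⟩ => ⟨fun i => (b i).2, a⟩⟩
    · refine Fin.cases ?_ (fun i => ?_) i
      exacts [hF, Subset.rfl]
    · refine Fin.cases ?_ (fun i => ?_) i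
      · have h4 : l ≠ l0 := fun e => hl (e ▸ hl0)
        have h5 : ∀ i, u i l = 0 := fun i => hu i l fun h => hl (hF h)
        simp [h4, h5]
      · exact hu i l fun h => hl (hF h)
    · refine Fin.cases ?_ (fun i => ?_) i <;> refine Fin.cases ?_ (fun j => ?_) j
      · simp [sub_dotProduct, sum_dotProduct, h2, h3]
      · simp [sub_dotProduct, sum_dotProduct, hd, (Fin.succ_ne_zero j).symm]
      · simp [h3]
      · simp [hd]
    · refine Fin.cases (Or.inr ⟨rfl, h0, fun j hj => ?_⟩) (fun i => Or.inl (hu i)) i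
      obtain ⟨j, rfl⟩ := Fin.exists_succ_eq.2 hj
      exact hu j

end Pool.Agent.MP_1246c0_nt.H12
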